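import Pool.Agent.W622.ETG.Lin

/-!
Project ELG, part FULL (helper762)
-/

set_option autoImplicit false

namespace Pool.Agent.W762.ELG

open Pool.Agent.W622.ETG Module

/-- every element of a component is a value of a form of the component -/
theorem comp_value (hCFULL : S_CFULL) {V : Type} [AddCommGroup V] [Module (ZMod 2) V] [Finite V]
    {e : V} (A : Fam V) (X : DSub V)
    (h : (∃ ω, Prim A ω ∧ X = sp ω) ∨ IsCone e A X) (g : Dl V) (hg : g ∈ X) :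
    ∃ ω ∈ res A X, ∃ a : V, ω a = g := by
  rcases h with ⟨ω, hω, rfl⟩ | ⟨p, hcone⟩
  · obtain ⟨a, ha⟩ := hg
    exact ⟨ω, ⟨hω.1, fun a => ⟨a, rfl⟩⟩, a, ha⟩
  · obtain ⟨f, hfX, a, ha⟩ := hCFULL V e A X p g hcone hg
    obtain ⟨h3, hpX, hp0, hpe, hc⟩ := hcone
    refine ⟨wd e p f, ⟨hc f hfX, fun b => ?_⟩, a, ha⟩
    rw [wd_apply]
    exact X.add_mem (X.add_mem (X.smul_mem _ hfX) (X.smul_mem _ hpX)) (X.smul_mem _ hpX)

theorem t_FULL (hCFULL : S_CFULL) : S_FULL := by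
  intro V _ _ _ e A s f hA hC hf
  obtain ⟨hind, -, hcomp⟩ := hC
  rw [sSup_eq_iSup', Submodule.mem_iSup_iff_exists_finsupp] at hf
  obtain ⟨c, hc, hsum⟩ := hf
  have hex : ∀ X : DSub V, ∃ ω : Frm V, ∃ a : V, ∀ hX : X ∈ s, ω ∈ res A X ∧ ω a = c ⟨X, hX⟩ := by
    intro X
    by_cases hX : X ∈ s
    · obtain ⟨ω, h1, a, h2⟩ := comp_value hCFULL A X (hcomp X hX) _ (hc ⟨X, hX⟩)
      exact ⟨ω, a, fun _ => ⟨h1, h2⟩⟩
    · exact ⟨0, 0, fun h => absurd h hX⟩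
  choose ω α hω using hex
  obtain ⟨a, ha⟩ := glue s α hind
  refine ⟨∑ X ∈ c.support, ω X.1, Submodule.sum_mem _ (fun X _ => (hω X.1 X.2).1.1), a, ?_⟩
  have key : ∀ X : s, ω X.1 a = c X := by
    intro X
    obtain ⟨h1, h2⟩ := hω X.1 X.2
    rw [← h2]
    apply LinearMap.ext
    intro b
    rw [(hA _ h1.1).symm a b, (hA _ h1.1).symm (α X.1) b]
    exact ha X.1 X.2 _ (h1.2 b)
  rw [LinearMap.sum_apply, Finset.sum_congr rfl (fun X _ => key X)]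
  exact hsum

end Pool.Agent.W762.ELG
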